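import Pool.Agent.helper78.CX.Defs

/-!
# cx:HA, cx:HB, cx:HC  general H-polytopes: faces, boundary, density, finite generation
-/

set_option autoImplicit false

open Set Filter Topology

namespace Pool.Agent.helper78.CX

section HPoly
variable {E : Type*} [NormedAddCommGroup E] [InnerProductSpace ℝ E] {T : Type*}

/-! ## module cx:HA -/

theorem hg_mem_bdComplex (L : T → StrongDual ℝ E) (b : T → ℝ) (x0 : E)
    (h0 : ∀ t, L t x0 < b t) (t : T) : HG L b t ∈ bdComplex (HP L b) := by
  constructor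
  · rintro ⟨z, hz, hzt⟩
    refine ⟨L t, ?_⟩
    ext x
    constructor
    · rintro ⟨hx, hxt⟩
      exact ⟨hx, fun y hy => (hy t).trans hxt.ge⟩
    · rintro ⟨hx, hxt⟩
      refine ⟨hx, le_antisymm (hx t) ?_⟩
      rw [← hzt]
      exact hxt z hz
  · intro h
    have hx0 : x0 ∈ HP L b := fun t => (h0 t).le
    rw [← h] at hx0
    exact (h0 t).ne hx0.2

/-- moving a little in an admissible direction -/
theorem HA_move [Finite T] (L : T → StrongDual ℝ E) (b : T → ℝ) (x d : E)
    (h : ∀ t, L t x < b t ∨ (L t x ≤ b t ∧ L t d ≤ 0)) :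
    ∃ r : ℝ, 0 < r ∧ x + r • d ∈ HP L b := by
  have h1 : ∀ t, ∀ᶠ r : ℝ in 𝓝[>] 0, L t (x + r • d) ≤ b t := by
    intro t
    rcases h t with h2 | ⟨h2, h3⟩
    · have hc : Continuous fun r : ℝ => L t (x + r • d) := by fun_prop
      have h4 : ∀ᶠ r : ℝ in 𝓝 0, L t (x + r • d) < b t := by
        apply hc.continuousAt.eventually_lt continuousAt_const
        simpa using h2
      exact (h4.filter_mono nhdsWithin_le_nhds).mono fun r hr => hr.le
    · filter_upwards [self_mem_nhdsWithin] with r hr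
      have hr0 : 0 < r := hr
      rw [map_add, map_smul, smul_eq_mul]
      nlinarith
  have h2 : ∀ᶠ r : ℝ in 𝓝[>] 0, ∀ t, L t (x + r • d) ≤ b t := eventually_all.2 h1
  obtain ⟨r, hr, hr0⟩ := (h2.and self_mem_nhdsWithin).exists
  exact ⟨r, hr0, hr⟩

theorem HA_dir [Finite T] (L : T → StrongDual ℝ E) (b : T → ℝ) (l : StrongDual ℝ E) (x d : E)
    (hx : ∀ y ∈ HP L b, l y ≤ l x)
    (h : ∀ t, L t x < b t ∨ (L t x ≤ b t ∧ L t d ≤ 0)) : l d ≤ 0 := by
  obtain ⟨r, hr, hm⟩ := HA_move L b x d h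
  have h1 := hx _ hm
  rw [map_add, map_smul, smul_eq_mul] at h1
  have h2 : r * l d ≤ 0 := by linarith
  exact nonpos_of_mul_nonpos_right h2 hr

theorem hp_face_eq [Finite T] (L : T → StrongDual ℝ E) (b : T → ℝ) (F : Set E)
    (hF : F ∈ bdComplex (HP L b)) (t : T) (x : E) (hxF : x ∈ F) (hxW : x ∈ HW L b t) :
    F = HG L b t := by
  obtain ⟨hFe, hFP⟩ := hF
  obtain ⟨l, hl⟩ := hFe ⟨x, hxF⟩
  have hx : x ∈ {x | x ∈ HP L b ∧ ∀ y ∈ HP L b, l y ≤ l x} := by rw [← hl]; exact hxF
  have hd : ∀ d, L t d ≤ 0 → l d ≤ 0 := by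
    intro d hd
    apply HA_dir L b l x d hx.2
    intro t'
    by_cases h : t' = t
    · subst h
      exact Or.inr ⟨hxW.1.le, hd⟩
    · exact Or.inl (hxW.2 t' h)
  have hne : ∃ d, l d ≠ 0 := by
    by_contra hcon
    push Not at hcon
    apply hFP
    rw [hl]
    ext y
    constructor
    · exact fun h => h.1
    · intro h
      exact ⟨h, fun z _ => by rw [hcon, hcon]⟩
  have hker : ∀ d, L t d = 0 → l d = 0 := by
    intro d hd0
    apply le_antisymm (hd d hd0.le)
    have := hd (-d) (by rw [map_neg, hd0, neg_zero])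
    rw [map_neg] at this
    linarith
  obtain ⟨d0, hd0⟩ : ∃ d, L t d = -1 := by
    by_contra hcon
    push Not at hcon
    have hz : ∀ d, L t d = 0 := by
      intro d
      by_contra h
      apply hcon ((-(L t d)⁻¹) • d)
      rw [map_smul, smul_eq_mul]
      field_simp
    obtain ⟨d, hd1⟩ := hne
    exact hd1 (hker d (hz d))
  have hlin : ∀ d, l d = -l d0 * L t d := by
    intro d
    have h1 := hker (d + (L t d) • d0) (by rw [map_add, map_smul, hd0, smul_eq_mul]; ring)
    rw [map_add, map_smul, smul_eq_mul] at h1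
    linarith
  have hc : 0 < -l d0 := by
    have h1 := hd d0 (by rw [hd0]; norm_num)
    rcases h1.lt_or_eq with h2 | h2
    · linarith
    · exfalso
      obtain ⟨d, hd1⟩ := hne
      apply hd1
      rw [hlin d, h2]
      ring
  rw [hl]
  ext y
  constructor
  · rintro ⟨hy, hy2⟩
    refine ⟨hy, le_antisymm (hy t) ?_⟩
    have h1 := hy2 x hx.1
    rw [hlin x, hlin y] at h1
    have h2 := le_of_mul_le_mul_left h1 hc
    rw [← hxW.1]
    exact h2
  · rintro ⟨hy, hyt⟩
    refine ⟨hy, fun z hz => ?_⟩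
    rw [hlin z, hlin y, hyt]
    exact mul_le_mul_of_nonneg_left (hz t) hc.le

theorem hp_bd [Finite T] (L : T → StrongDual ℝ E) (b : T → ℝ) (x0 : E)
    (h0 : ∀ t, L t x0 < b t) : ⋃₀ bdComplex (HP L b) = ⋃ t, HG L b t := by
  apply Subset.antisymm
  · rintro x ⟨F, ⟨hFe, hFP⟩, hxF⟩
    obtain ⟨l, hl⟩ := hFe ⟨x, hxF⟩
    have hx : x ∈ {x | x ∈ HP L b ∧ ∀ y ∈ HP L b, l y ≤ l x} := by rw [← hl]; exact hxF
    rw [mem_iUnion]
    by_contra hcon
    push Not at hcon
    have hs : ∀ t, L t x < b t := by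
      intro t
      refine lt_of_le_of_ne (hx.1 t) fun h => hcon t ⟨hx.1, h⟩
    have hd : ∀ d, l d ≤ 0 := fun d => HA_dir L b l x d hx.2 fun t => Or.inl (hs t)
    have hz : ∀ d, l d = 0 := by
      intro d
      apply le_antisymm (hd d)
      have := hd (-d)
      rw [map_neg] at this
      linarith
    apply hFP
    rw [hl]
    ext y
    constructor
    · exact fun h => h.1
    · intro h
      exact ⟨h, fun z _ => by rw [hz, hz]⟩
  · intro x hx
    rw [mem_iUnion] at hx
    obtain ⟨t, ht⟩ := hx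
    exact ⟨HG L b t, hg_mem_bdComplex L b x0 h0 t, ht⟩

/-! ## module cx:HB -/

theorem hw_dense [Finite T] (L : T → StrongDual ℝ E) (b : T → ℝ) (x0 : E)
    (h0 : ∀ t, L t x0 < b t) (hW : ∀ t, (HW L b t).Nonempty) (U : Set E) (hU : IsOpen U) (t : T)
    (h : (U ∩ HG L b t).Nonempty) : ∃ t', (U ∩ HW L b t').Nonempty := by
  obtain ⟨x, hxU, hxP, hxt⟩ := h
  obtain ⟨w, hwt, hw⟩ := hW t
  have hc : Continuous fun r : ℝ => x + r • (w - x) := by fun_prop
  have h1 : ∀ᶠ r : ℝ in 𝓝 0, x + r • (w - x) ∈ U := by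
    apply hc.continuousAt.eventually_mem
    simpa using hU.mem_nhds hxU
  have h2 : ∀ᶠ r : ℝ in 𝓝 0, r < 1 := eventually_lt_nhds one_pos
  obtain ⟨r, ⟨hr1, hr2⟩, hr0⟩ :=
    (((h1.and h2).filter_mono nhdsWithin_le_nhds).and
      (self_mem_nhdsWithin : Ioi (0 : ℝ) ∈ 𝓝[>] 0)).exists
  have hr0 : 0 < r := hr0
  refine ⟨t, x + r • (w - x), hr1, ?_, fun t' ht' => ?_⟩
  · rw [map_add, map_smul, map_sub, hxt, hwt, sub_self, smul_zero, add_zero]
  · rw [map_add, map_smul, map_sub, smul_eq_mul]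
    have h3 := hw t' ht'
    have h4 := hxP t'
    nlinarith

/-! ## module cx:HC -/

theorem HC_extreme_inj [Finite T] (L : T → StrongDual ℝ E) (b : T → ℝ) (x y : E)
    (hx : x ∈ (HP L b).extremePoints ℝ) (hy : y ∈ (HP L b).extremePoints ℝ)
    (h : {t | L t x = b t} = {t | L t y = b t}) : x = y := by
  by_contra hne
  have hxP : x ∈ HP L b := hx.1
  have key : ∀ d : E, (∀ t, L t x = b t → L t d = 0) →
      ∀ t, L t x < b t ∨ (L t x ≤ b t ∧ L t d ≤ 0) := by
    intro d hd t
    rcases (hxP t).lt_or_eq with h1 | h1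
    · exact Or.inl h1
    · exact Or.inr ⟨h1.le, (hd t h1).le⟩
  have hd : ∀ t, L t x = b t → L t (y - x) = 0 := by
    intro t ht
    have h1 : t ∈ {t | L t y = b t} := by rw [← h]; exact ht
    have h2 : L t y = b t := h1
    rw [map_sub, ht, h2, sub_self]
  have hd' : ∀ t, L t x = b t → L t (-(y - x)) = 0 := by
    intro t ht
    rw [map_neg, hd t ht, neg_zero]
  obtain ⟨r, hr, hrm⟩ := HA_move L b x _ (key _ hd)
  obtain ⟨r', hr', hrm'⟩ := HA_move L b x _ (key _ hd')
  have hseg : x ∈ openSegment ℝ (x + r • (y - x)) (x + r' • (-(y - x))) := by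
    refine ⟨r' / (r + r'), r / (r + r'), by positivity, by positivity, by field_simp; ring, ?_⟩
    rw [smul_add, smul_add, smul_smul, smul_smul, smul_neg]
    have h1 : r' / (r + r') * r = r / (r + r') * r' := by ring
    rw [h1]
    have h2 : r' / (r + r') + r / (r + r') = 1 := by field_simp; ring
    calc _ = (r' / (r + r') + r / (r + r')) • x := by rw [add_smul]; abel
      _ = x := by rw [h2, one_smul]
  have h1 := (mem_extremePoints.1 hx).2 _ hrm _ hrm' hseg
  have h2 : r • (y - x) = 0 := by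
    have := h1.1
    rwa [add_eq_left] at this
  rcases smul_eq_zero.1 h2 with h3 | h3
  · exact hr.ne' h3
  · exact hne (sub_eq_zero.1 h3).symm

theorem HC_closed (L : T → StrongDual ℝ E) (b : T → ℝ) : IsClosed (HP L b) := by
  have : HP L b = ⋂ t, {x | L t x ≤ b t} := by
    ext x; simp [HP]
  rw [this]
  exact isClosed_iInter fun t => isClosed_le (L t).continuous continuous_const

theorem HC_convex (L : T → StrongDual ℝ E) (b : T → ℝ) : Convex ℝ (HP L b) := by
  intro x hx y hy a c ha hc hac t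
  have h1 := hx t
  have h2 := hy t
  rw [map_add, map_smul, map_smul, smul_eq_mul, smul_eq_mul]
  have : c = 1 - a := by linarith
  subst this
  nlinarith

theorem hp_polytope [Finite T] [FiniteDimensional ℝ E] (L : T → StrongDual ℝ E) (b : T → ℝ)
    (hb : Bornology.IsBounded (HP L b)) : IsPolytope (HP L b) := by
  have : ProperSpace E := FiniteDimensional.proper ℝ E
  have hcomp : IsCompact (HP L b) := Metric.isCompact_of_isClosed_isBounded (HC_closed L b) hb
  have hfin : ((HP L b).extremePoints ℝ).Finite := by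
    have hinj : InjOn (fun x : E => {t | L t x = b t}) ((HP L b).extremePoints ℝ) :=
      fun x hx y hy h => HC_extreme_inj L b x y hx hy h
    exact Set.Finite.of_injOn (fun x _ => Set.mem_univ _) hinj Set.finite_univ
  refine ⟨(HP L b).extremePoints ℝ, hfin, ?_⟩
  have h1 := closure_convexHull_extremePoints hcomp (HC_convex L b)
  rw [(hfin.isClosed_convexHull ℝ).closure_eq] at h1
  exact h1.symm

end HPoly

end Pool.Agent.helper78.CX
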